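import Pool.Agent.Y811.PC.Stm

/-!
# Project PC (helper811), job PC-ROOT: inverse branches for the maps z ^ d + c

A port to general `d` of the file ML1 of Y736.
-/

set_option autoImplicit false

namespace Pool.Agent.Y356.PC

open Complex Metric Set Filter Topology Pool.Agent.H712R2
open Pool.Agent.Y811.PC

/-- holomorphic `d`-th roots on discs -/
theorem exists_root {d : ℕ} (hd : 2 ≤ d) {h : ℂ → ℂ} {u : ℂ} {δ : ℝ} (hδ : 0 < δ)
    (hh : DifferentiableOn ℂ h (ball u δ)) (h0 : ∀ z ∈ ball u δ, h z ≠ 0) :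
    ∃ s : ℂ → ℂ, DifferentiableOn ℂ s (ball u δ) ∧ ∀ z ∈ ball u δ, s z ^ d = h z := by
  have hδc : (δ : ℂ) ≠ 0 := by exact_mod_cast hδ.ne'
  have hdc : (d : ℂ) ≠ 0 := by
    have : d ≠ 0 := by omega
    exact_mod_cast this
  have hmap : ∀ w ∈ ball (0 : ℂ) 1, u + δ * w ∈ ball u δ := by
    intro w hw
    rw [mem_ball_zero_iff] at hw
    rw [mem_ball_iff_norm, add_sub_cancel_left, norm_mul, Complex.norm_real, Real.norm_eq_abs,
      abs_of_pos hδ]
    nlinarith
  have hmap' : ∀ z ∈ ball u δ, (z - u) / δ ∈ ball (0 : ℂ) 1 := by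
    intro z hz
    rw [mem_ball_iff_norm] at hz
    rw [mem_ball_zero_iff, norm_div, Complex.norm_real, Real.norm_eq_abs, abs_of_pos hδ,
      div_lt_one hδ]
    exact hz
  have hg : DifferentiableOn ℂ (fun w => h (u + δ * w)) (ball 0 1) := by
    apply hh.comp _ hmap
    exact (differentiableOn_id.const_mul _).const_add _
  obtain ⟨g, hgd, hge⟩ := H113G.J_schottky.exists_log hg (fun w hw => h0 _ (hmap w hw))
  refine ⟨fun z => Complex.exp (g ((z - u) / δ) / d), ?_, ?_⟩
  · apply DifferentiableOn.cexp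
    apply DifferentiableOn.div_const
    apply hgd.comp _ hmap'
    exact (differentiableOn_id.sub_const _).div_const _
  · intro z hz
    rw [← Complex.exp_nat_mul]
    have h1 := hge _ (hmap' z hz)
    have e : u + δ * ((z - u) / δ) = z := by field_simp; ring
    rw [e] at h1
    rw [← h1]
    congr 1
    field_simp

theorem t_ROOT : S_ROOT := fun _ hd _ _ _ hδ hh h0 => exists_root hd hδ hh h0

/-- inverse branches on balls which do not meet the critical orbit -/
theorem branch {d : ℕ} (hd : 2 ≤ d) {c u₀ : ℂ} {δ : ℝ} (hδ : 0 < δ) (n : ℕ) :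
    ∀ v₀ : ℂ, (fc d c)^[n] v₀ = u₀ → (∀ j, 1 ≤ j → j ≤ n → P d j c ∉ ball u₀ δ) →
    ∃ φ : ℂ → ℂ, DifferentiableOn ℂ φ (ball u₀ δ) ∧ φ u₀ = v₀ ∧
      ∀ u ∈ ball u₀ δ, (fc d c)^[n] (φ u) = u := by
  have hd0 : d ≠ 0 := by omega
  induction n with
  | zero =>
    intro v₀ hv _
    exact ⟨fun z => z, differentiableOn_id, hv.symm, fun u _ => rfl⟩
  | succ n ih =>
    intro v₀ hv hcrit
    rw [Function.iterate_succ_apply] at hv
    obtain ⟨φ, hφ, hφ0, hφe⟩ := ih _ hv (fun j hj hjn => hcrit j hj (by omega))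
    have hne : ∀ z ∈ ball u₀ δ, φ z - c ≠ 0 := by
      intro z hz h
      have h1 := hφe z hz
      rw [sub_eq_zero.1 h] at h1
      rw [iter_c hd] at h1
      apply hcrit (n + 1) (by omega) le_rfl
      rw [h1]
      exact hz
    obtain ⟨s, hs, hse⟩ := exists_root hd hδ (hφ.sub_const c) hne
    have h0 : u₀ ∈ ball u₀ δ := mem_ball_self hδ
    have h1 : s u₀ ^ d = v₀ ^ d := by
      rw [hse u₀ h0, hφ0]
      show v₀ ^ d + c - c = v₀ ^ d
      ring
    have hs0 : s u₀ ≠ 0 := by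
      intro h
      apply hne u₀ h0
      rw [← hse u₀ h0, h, zero_pow hd0]
    have h2 : (v₀ / s u₀) ^ d = 1 := by
      rw [div_pow, h1]
      exact div_self (by rw [← h1]; exact pow_ne_zero _ hs0)
    refine ⟨fun z => v₀ / s u₀ * s z, hs.const_mul _, div_mul_cancel₀ _ hs0, ?_⟩
    intro u hu
    rw [Function.iterate_succ_apply]
    have e : fc d c (v₀ / s u₀ * s u) = φ u := by
      show (v₀ / s u₀ * s u) ^ d + c = φ u
      rw [mul_pow, h2, one_mul, hse u hu]
      ring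
    rw [e]
    exact hφe u hu

theorem t_BRANCH : S_BRANCH := fun _ hd _ _ _ hδ n v₀ hv hc => branch hd hδ n v₀ hv hc

end Pool.Agent.Y356.PC
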